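import Pool.Agent.U307.RAD.Stm2
import Pool.Agent.U56.RAD.LP

/-!
# Project RAD, package LQ: the bound on `L^q`, `1 < q ≤ 2` (adapted from LP of helper56)
-/

set_option autoImplicit false

open MeasureTheory Filter Topology Set
open scoped ENNReal SchwartzMap ComplexConjugate

namespace Pool.Agent.U15.RAD.LQ

open Pool.Agent.U307.RAD Pool.Agent.U56.RAD

theorem t_LQ : S_FRM → S_LQ := by
  intro hF n l hn hl P hP hP2 f
  have h0 : 0 < P := by linarith
  have h1 : 1 < P := hP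
  set g : ℂ → ℂ := PP l f with hg
  have hgc : Continuous g := PP_cont l f.continuous
  set S : Set ℝ := Ioc (0 : ℝ) 1 with hS
  set w : ℝ → ℝ≥0∞ := fun r => ENNReal.ofReal (|uu n l r| * r ^ (1 - 2 / P)) with hw
  have hwm : Measurable w :=
    ((uu_cont n l).abs.measurable.mul (measurable_id.pow_const _)).ennreal_ofReal
  set K : ℝ≥0∞ := ∫⁻ r in S, w r with hK
  set v : ℝ → ℝ := fun r => 2 * ∑ i ∈ Finset.range n, Cc n l i * r ^ (l - 1 + 2 * i) with hv
  have hvc : Continuous v := by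
    rw [hv]
    fun_prop
  have hvu : ∀ r : ℝ, 0 < r → |uu n l r| / r = |v r| := by
    intro r hr
    have e1 : uu n l r = v r * r := by
      rw [hv]
      unfold uu
      simp only
      rw [mul_assoc, Finset.sum_mul]
      congr 1
      refine Finset.sum_congr rfl fun i _ => ?_
      rw [mul_assoc, ← pow_succ]
      congr 2
      omega
    rw [e1, abs_mul, abs_of_pos hr, mul_div_assoc, div_self hr.ne', mul_one]
  have hint0 : 0 ≤ ∫ r in (0 : ℝ)..1, |uu n l r| / r :=
    intervalIntegral.integral_nonneg zero_le_one fun r hr => div_nonneg (abs_nonneg _) hr.1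
  have hKv : K ≤ ENNReal.ofReal (∫ r in (0 : ℝ)..1, |uu n l r| / r) := by
    have e1 : ∫ r in (0 : ℝ)..1, |uu n l r| / r = ∫ r in S, |v r| := by
      rw [intervalIntegral.integral_of_le zero_le_one]
      exact setIntegral_congr_fun measurableSet_Ioc fun r hr => hvu r hr.1
    rw [e1, ofReal_integral_eq_lintegral_ofReal hvc.abs.integrableOn_Ioc
      (Filter.Eventually.of_forall fun r => abs_nonneg _)]
    refine setLIntegral_mono' measurableSet_Ioc fun r hr => ?_
    rw [hw]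
    refine ENNReal.ofReal_le_ofReal ?_
    rw [← hvu r hr.1, div_eq_mul_inv (|uu n l r|) r]
    refine mul_le_mul_of_nonneg_left ?_ (abs_nonneg _)
    have e2 : 2 / P ≤ 2 := by
      rw [div_le_iff₀ h0]
      linarith
    have e3 : r ^ (1 - 2 / P) ≤ r ^ (-1 : ℝ) :=
      Real.rpow_le_rpow_of_exponent_ge hr.1 hr.2 (by linarith)
    rwa [Real.rpow_neg_one] at e3
  have hKP : 1 + K ≤ ENNReal.ofReal (KU n l) := by
    rw [KU, ENNReal.ofReal_add zero_le_one hint0, ENNReal.ofReal_one]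
    gcongr
  -- the second term
  set h : ℂ → ℝ≥0∞ := fun z => ∫⁻ r in S, ‖(qq n l r : ℂ)‖ₑ * ‖g ((r : ℂ) * z)‖ₑ with hh
  have hqc : Continuous fun r : ℝ => (qq n l r : ℂ) := by
    have : Continuous (qq n l) := by
      unfold qq
      exact continuous_id.mul (uu_cont n l)
    exact Complex.continuous_ofReal.comp this
  have hgr : Continuous fun q : ℂ × ℝ => g ((q.2 : ℂ) * q.1) := by fun_prop
  have hhm : Measurable h := by
    rw [hh]
    refine Measurable.lintegral_prod_right' (f := fun q : ℂ × ℝ =>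
      ‖(qq n l q.2 : ℂ)‖ₑ * ‖g ((q.2 : ℂ) * q.1)‖ₑ) ?_
    exact ((hqc.comp continuous_snd).enorm.measurable).mul hgr.enorm.measurable
  have hAA : ∀ᵐ z : ℂ, ‖AA n l f z‖ₑ ≤ ‖g z‖ₑ + h z := by
    have hne : ∀ᵐ z : ℂ, z ≠ 0 := by
      simp [ae_iff, measure_singleton]
    refine hne.mono fun z hz => ?_
    rw [hF n l hn f z hz, enorm_mul, enorm_pow]
    have e1 : ‖starRingEnd ℂ z / z‖ₑ = 1 := by
      rw [← ofReal_norm, norm_div, Complex.norm_conj, div_self (by simpa using hz),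
        ENNReal.ofReal_one]
    rw [e1, one_pow, one_mul]
    refine (enorm_sub_le).trans (add_le_add le_rfl ?_)
    rw [intervalIntegral.integral_of_le zero_le_one]
    refine (enorm_integral_le_lintegral_enorm _).trans (le_of_eq ?_)
    refine lintegral_congr fun r => ?_
    rw [enorm_mul]
  -- the norm of the second term
  have hhP : ∫⁻ z, h z ^ P ≤ K ^ P * ∫⁻ z, ‖g z‖ₑ ^ P := by
    set ν : Measure ℝ := (volume.restrict S).withDensity w with hν
    have hνu : ν univ = K := by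
      rw [hν, withDensity_apply _ MeasurableSet.univ, setLIntegral_univ]
    have m1 : Measurable fun r : ℝ => ENNReal.ofReal (r ^ (2 / P)) :=
      (Measurable.pow_const measurable_id _).ennreal_ofReal
    have m2 : ∀ z : ℂ, Measurable fun r : ℝ => ‖g ((r : ℂ) * z)‖ₑ := fun z => by
      have : Continuous fun r : ℝ => g ((r : ℂ) * z) := by fun_prop
      exact this.enorm.measurable
    have hm : ∀ z : ℂ, Measurable fun r : ℝ => ENNReal.ofReal (r ^ (2 / P)) * ‖g ((r : ℂ) * z)‖ₑ :=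
      fun z => m1.mul (m2 z)
    have e1 : ∀ z, h z = ∫⁻ r, ENNReal.ofReal (r ^ (2 / P)) * ‖g ((r : ℂ) * z)‖ₑ ∂ν := by
      intro z
      rw [hν, lintegral_withDensity_eq_lintegral_mul _ hwm]
      · refine setLIntegral_congr_fun measurableSet_Ioc fun r hr => ?_
        simp only [Pi.mul_apply]
        rw [← mul_assoc]
        congr 1
        rw [hw]
        simp only
        have hr0 : 0 < r := hr.1
        rw [← ENNReal.ofReal_mul (by positivity), mul_assoc, ← Real.rpow_add hr0]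
        have : 1 - 2 / P + 2 / P = 1 := by ring
        rw [this, Real.rpow_one, ← ofReal_norm, Complex.norm_real, Real.norm_eq_abs, qq,
          abs_mul, abs_of_pos hr0, mul_comm]
      · exact hm z
    have e2 : ∀ z, h z ^ P ≤ K ^ (P - 1) *
        ∫⁻ r in S, w r * (ENNReal.ofReal (r ^ 2) * ‖g ((r : ℂ) * z)‖ₑ ^ P) := by
      intro z
      rw [e1 z]
      refine (jens ν h1 (hm z).aemeasurable).trans ?_
      rw [hνu]
      refine mul_le_mul_right ?_ _
      rw [hν, lintegral_withDensity_eq_lintegral_mul _ hwm ((hm z).pow_const P)]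
      refine le_of_eq (setLIntegral_congr_fun measurableSet_Ioc fun r hr => ?_)
      simp only [Pi.mul_apply]
      have hr0 : 0 < r := hr.1
      rw [ENNReal.mul_rpow_of_nonneg _ _ h0.le, ENNReal.ofReal_rpow_of_nonneg (by positivity) h0.le,
        ← Real.rpow_mul hr0.le, div_mul_cancel₀ _ h0.ne']
      norm_num
    have hmm : Measurable fun q : ℂ × ℝ =>
        w q.2 * (ENNReal.ofReal (q.2 ^ 2) * ‖g ((q.2 : ℂ) * q.1)‖ₑ ^ P) := by
      refine (hwm.comp measurable_snd).mul (Measurable.mul ?_ (hgr.enorm.measurable.pow_const P))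
      exact (measurable_snd.pow_const 2).ennreal_ofReal
    calc ∫⁻ z, h z ^ P
        ≤ ∫⁻ z, K ^ (P - 1) *
          ∫⁻ r in S, w r * (ENNReal.ofReal (r ^ 2) * ‖g ((r : ℂ) * z)‖ₑ ^ P) := lintegral_mono e2
      _ = K ^ (P - 1) * ∫⁻ z, ∫⁻ r in S,
          w r * (ENNReal.ofReal (r ^ 2) * ‖g ((r : ℂ) * z)‖ₑ ^ P) := by
          rw [lintegral_const_mul]
          exact Measurable.lintegral_prod_right' hmm
      _ = K ^ (P - 1) * ∫⁻ r in S, ∫⁻ z,
          w r * (ENNReal.ofReal (r ^ 2) * ‖g ((r : ℂ) * z)‖ₑ ^ P) := by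
          rw [lintegral_lintegral_swap hmm.aemeasurable]
      _ = K ^ (P - 1) * ∫⁻ r in S, w r * ∫⁻ z, ‖g z‖ₑ ^ P := by
          congr 1
          refine setLIntegral_congr_fun measurableSet_Ioc fun r hr => ?_
          have hm' : Measurable fun z : ℂ => ‖g ((r : ℂ) * z)‖ₑ ^ P :=
            ((hgc.comp (continuous_const.mul continuous_id)).enorm.measurable).pow_const P
          rw [lintegral_const_mul _ (hm'.const_mul _), lintegral_const_mul _ hm',
            lint_scale hr.1 (φ := fun z => ‖g z‖ₑ ^ P) (hgc.enorm.measurable.pow_const P)]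
      _ = K ^ P * ∫⁻ z, ‖g z‖ₑ ^ P := by
          rw [lintegral_mul_const _ hwm, ← mul_assoc]
          congr 1
          rw [← hK]
          by_cases hK0 : K = 0
          · rw [hK0, ENNReal.zero_rpow_of_pos h0, mul_zero]
          · have hKt : K ≠ ⊤ := ne_top_of_le_ne_top ENNReal.ofReal_ne_top hKv
            conv_lhs => rw [← ENNReal.rpow_one K, ← ENNReal.rpow_mul]
            rw [← ENNReal.rpow_add _ _ hK0 hKt]
            congr 1
            ring
  -- Minkowski
  have hfin : (∫⁻ z, ‖AA n l f z‖ₑ ^ P) ^ (1 / P) ≤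
      (1 + K) * (∫⁻ z, ‖f z‖ₑ ^ P) ^ (1 / P) := by
    have a1 : ∫⁻ z, ‖AA n l f z‖ₑ ^ P ≤ ∫⁻ z, ((fun z => ‖g z‖ₑ) + h) z ^ P := by
      refine lintegral_mono_ae (hAA.mono fun z hz => ?_)
      exact ENNReal.rpow_le_rpow hz h0.le
    have a2 := ENNReal.lintegral_Lp_add_le (μ := (volume : Measure ℂ))
      (f := fun z => ‖g z‖ₑ) (g := h) hgc.enorm.measurable.aemeasurable hhm.aemeasurable h1.le
    have a3 : (∫⁻ z, ‖g z‖ₑ ^ P) ≤ ∫⁻ z, ‖f z‖ₑ ^ P := PP_le l f.continuous h1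
    have hi : 0 ≤ 1 / P := by positivity
    have a4 : (∫⁻ z, h z ^ P) ^ (1 / P) ≤ K * (∫⁻ z, ‖f z‖ₑ ^ P) ^ (1 / P) := by
      refine (ENNReal.rpow_le_rpow (hhP.trans (mul_le_mul_right a3 _)) hi).trans (le_of_eq ?_)
      rw [ENNReal.mul_rpow_of_nonneg _ _ hi, ← ENNReal.rpow_mul, mul_one_div_cancel h0.ne',
        ENNReal.rpow_one]
    calc (∫⁻ z, ‖AA n l f z‖ₑ ^ P) ^ (1 / P)
        ≤ (∫⁻ z, ((fun z => ‖g z‖ₑ) + h) z ^ P) ^ (1 / P) := ENNReal.rpow_le_rpow a1 hi
      _ ≤ (∫⁻ z, ‖g z‖ₑ ^ P) ^ (1 / P) + (∫⁻ z, h z ^ P) ^ (1 / P) := a2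
      _ ≤ (∫⁻ z, ‖f z‖ₑ ^ P) ^ (1 / P) + K * (∫⁻ z, ‖f z‖ₑ ^ P) ^ (1 / P) :=
          add_le_add (ENNReal.rpow_le_rpow a3 hi) a4
      _ = (1 + K) * (∫⁻ z, ‖f z‖ₑ ^ P) ^ (1 / P) := by ring
  have := ENNReal.rpow_le_rpow hfin h0.le
  rw [← ENNReal.rpow_mul, one_div_mul_cancel h0.ne', ENNReal.rpow_one,
    ENNReal.mul_rpow_of_nonneg _ _ h0.le, ← ENNReal.rpow_mul, one_div_mul_cancel h0.ne',
    ENNReal.rpow_one] at this
  refine this.trans ?_
  gcongr

end Pool.Agent.U15.RAD.LQ
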