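import Pool.Agent.U307.RAD.Stm2
import Pool.Agent.U723.RAD.NUM

/-!
Project RAD, package NUM2: numerical inequalities.
-/

set_option autoImplicit false

namespace Pool.Agent.U15.RAD.NUM2

open Pool.Agent.U307.RAD Real Pool.Agent.U723.RAD.NUM

lemma log_le_aux {y : ℝ} (hy : 1 ≤ y) : log y ≤ (y - y⁻¹) / 2 := by
  have h0 : 0 < y := by linarith
  have h1 : 0 ≤ log y := Real.log_nonneg hy
  have h2 := Real.self_le_sinh_iff.2 h1
  rwa [Real.sinh_log h0] at h2

lemma log_half : log (13 / 2) ≤ 15 / 8 := by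
  have h1 : log ((13 / 2 : ℝ) ^ 8) ≤ 15 := by
    rw [Real.log_le_iff_le_exp (by positivity)]
    have h2 : exp (15 : ℝ) = exp 1 ^ 15 := by
      rw [← Real.exp_nat_mul]; norm_num
    rw [h2]
    have h3 := Real.exp_one_gt_d9
    calc ((13 / 2 : ℝ)) ^ 8 ≤ (2.7182818283 : ℝ) ^ 15 := by norm_num
      _ ≤ exp 1 ^ 15 := pow_le_pow_left₀ (by norm_num) h3.le 15
  rw [Real.log_pow] at h1
  push_cast at h1
  linarith

/-- the sum of `2 / (2 k + 1)` -/
lemma harm2 (n : ℕ) (hn : 1 ≤ n) :
    log n + 15 / 8 + 1 / (8 * (n : ℝ) ^ 2) ≤ ∑ k ∈ Finset.range n, (2 : ℝ) / (2 * k + 1) := by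
  induction n, hn using Nat.le_induction with
  | base => simp; norm_num
  | succ n hn ih =>
    rw [Finset.sum_range_succ]
    have hn0 : (1 : ℝ) ≤ n := by exact_mod_cast hn
    have hnp : (0 : ℝ) < n := by linarith
    have h3 : log ((n + 1 : ℕ) : ℝ) - log n ≤ (2 * n + 1) / (2 * n * (n + 1)) := by
      rw [← Real.log_div (by positivity) (by positivity)]
      refine (log_le_aux ?_).trans (le_of_eq ?_)
      · rw [one_le_div hnp]; push_cast; linarith
      · push_cast
        field_simp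
        ring
    have h4 : (2 * (n : ℝ) + 1) / (2 * n * (n + 1)) + 1 / (8 * ((n : ℝ) + 1) ^ 2) ≤
        2 / (2 * n + 1) + 1 / (8 * (n : ℝ) ^ 2) := by
      have e1 : 2 / (2 * (n : ℝ) + 1) + 1 / (8 * (n : ℝ) ^ 2) -
          ((2 * (n : ℝ) + 1) / (2 * n * (n + 1)) + 1 / (8 * ((n : ℝ) + 1) ^ 2)) =
          1 / (8 * (n : ℝ) ^ 2 * (n + 1) ^ 2 * (2 * n + 1)) := by
        field_simp
        ring
      have e2 : 0 ≤ 1 / (8 * (n : ℝ) ^ 2 * (n + 1) ^ 2 * (2 * n + 1)) := by positivity
      linarith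
    push_cast at h3 ⊢
    linarith

theorem t_NUM2 : S_NUM2 := by
  intro n p hn hp
  have hp0 : 0 < p := by linarith
  have hn0 : (1 : ℝ) ≤ n := by exact_mod_cast hn
  have hnp : (0 : ℝ) < n := by linarith
  have hs0 : 0 ≤ 1 - 2 / p := by
    rw [sub_nonneg, div_le_one hp0]; exact hp
  have hl := log_half
  constructor
  · have h1 : (13 / 2 : ℝ) ^ (1 - 2 / p) ≤ p - 1 := by
      have h := Real.le_log_one_add_of_nonneg (x := p - 2) (by linarith)
      have e1 : 1 + (p - 2) = p - 1 := by ring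
      have e2 : 2 * (p - 2) / (p - 2 + 2) = 2 * (1 - 2 / p) := by
        rw [sub_add_cancel, mul_div_assoc, sub_div, div_self hp0.ne']
      rw [e1, e2] at h
      rw [Real.rpow_def_of_pos (by norm_num), ← Real.le_log_iff_exp_le (by linarith)]
      refine le_trans ?_ h
      exact mul_le_mul_of_nonneg_right (by linarith) hs0
    rw [Real.mul_rpow (by norm_num) (by positivity), mul_comm]
    exact mul_le_mul le_rfl h1 (by positivity) (by positivity)
  · have ht2 : 1 / p ≤ 1 / 2 := by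
      apply one_div_le_one_div_of_le <;> linarith
    refine le_trans ?_ (prod (1 / p) (by positivity) ht2 n)
    have e1 : 1 - 2 / p = 1 - 2 * (1 / p) := by ring
    rw [Real.rpow_def_of_pos (by positivity), Real.exp_le_exp, ← e1, mul_comm]
    apply mul_le_mul_of_nonneg_left _ hs0
    rw [Real.log_mul (by norm_num) (by positivity)]
    have h := harm2 n hn
    have h5 : (0 : ℝ) ≤ 1 / (8 * (n : ℝ) ^ 2) := by positivity
    linarith

end Pool.Agent.U15.RAD.NUM2
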